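import Pool.Agent.TH966.KO.Sparse
import Pool.Agent.H46R2.K3.EQ

/-!
Self-avoiding walks on `ℤ³`: `c_(n+2) / c_n ≤ μ² + K n^(-2/5+ε)` (Kesten 1963: exponent `-1/3`).
-/

set_option autoImplicit false

namespace Pool.Agent.Results.MP_794e6e_pr.RatioUpperRate

open Filter Topology

/-- the number of `n`-step self-avoiding nearest-neighbour walks on `ℤ³` from `0` -/
noncomputable def C (n : ℕ) : ℕ :=
  Nat.card {f : Fin (n + 1) → (Fin 3 → ℤ) //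
    f 0 = 0 ∧ Function.Injective f ∧
    ∀ i : Fin n, ∑ j : Fin 3, |f i.succ j - f i.castSucc j| = 1}

/-- **Theorem.** On `ℤ³` let `μ > 0` be the limit of `c_n^(1/n)`.  For every `ε > 0` there is a constant
`K` such that `c_(n+2) / c_n ≤ μ² + K n^(-2/5+ε)` for all `n ≥ 1`. -/
theorem result : ∃ μ : ℝ, 0 < μ ∧
    Tendsto (fun n : ℕ => (C n : ℝ) ^ (1 / (n : ℝ))) atTop (𝓝 μ) ∧
    ∀ ε : ℝ, 0 < ε → ∃ K : ℝ, ∀ n : ℕ, 1 ≤ n →
      (C (n + 2) : ℝ) / C n ≤ μ ^ 2 + K * (n : ℝ) ^ (-(2 / 5 : ℝ) + ε) := by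
  have hC : ∀ n, C n = Pool.Agent.H46R2.K3.c n := fun n => Pool.Agent.H46R2.K3.P.card_eq n
  refine ⟨Pool.Agent.H46R2.K3.mu, lt_of_lt_of_le one_pos Pool.Agent.H46R2.K3.P.one_le_mu,
    ?_, ?_⟩
  · simpa only [hC] using Pool.Agent.H46R2.K3.P.tendsto_c
  · intro ε hε
    simp only [hC]
    exact TH966.KO.upper ε hε

end Pool.Agent.Results.MP_794e6e_pr.RatioUpperRate
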