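import Pool.Agent.TH966.KO.SparseExp
import Pool.Agent.H46R2.K3.EQ

/-!
Self-avoiding walks on `ℤ³`: control of `c_n / μ^n` on the logarithmic scale passes from even lengths
with gaps `o(√(n log n))` (or `O(√(n log n))`) to all lengths.
-/

set_option autoImplicit false

namespace Pool.Agent.Results.MP_794e6e_pr.SparseExponent

open Filter Topology

/-- the number of `n`-step self-avoiding nearest-neighbour walks on `ℤ³` from `0` -/
noncomputable def C (n : ℕ) : ℕ :=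
  Nat.card {f : Fin (n + 1) → (Fin 3 → ℤ) //
    f 0 = 0 ∧ Function.Injective f ∧
    ∀ i : Fin n, ∑ j : Fin 3, |f i.succ j - f i.castSucc j| = 1}

/-- **Theorem.** On `ℤ³` let `μ > 0` be the limit of `c_n^(1/n)` and let `u j → ∞` be natural numbers.

* If the gaps `u (j + 1) - u j` are `o(√(u j * log (u j)))` and `log (c_n / μ^n) / log n` converges to
  `γ - 1` along `n = 2 * u j`, then it converges to `γ - 1` along all `n`.
* If the gaps are `O(√(u j * log (u j)))` and `c_n ≤ μ^n n^B` for `n = 2 * u j`, `j` large, then there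
  is `B'` with `c_n ≤ μ^n n^B'` for all large `n`. -/
theorem result : ∃ μ : ℝ, 0 < μ ∧
    Tendsto (fun n : ℕ => (C n : ℝ) ^ (1 / (n : ℝ))) atTop (𝓝 μ) ∧
    ∀ u : ℕ → ℕ, Tendsto u atTop atTop →
      (Tendsto (fun j : ℕ => ((u (j + 1) : ℝ) - u j) / √(u j * Real.log (u j))) atTop (𝓝 0) →
        ∀ γ : ℝ, Tendsto (fun j : ℕ => Real.log ((C (2 * u j) : ℝ) / μ ^ (2 * u j)) /
          Real.log (2 * u j)) atTop (𝓝 (γ - 1)) →
        Tendsto (fun n : ℕ => Real.log ((C n : ℝ) / μ ^ n) / Real.log n) atTop (𝓝 (γ - 1))) ∧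
      (∀ G B : ℝ, (∀ᶠ j : ℕ in atTop, (u (j + 1) : ℝ) ≤ u j + G * √(u j * Real.log (u j))) →
        (∀ᶠ j : ℕ in atTop, (C (2 * u j) : ℝ) ≤ μ ^ (2 * u j) * ((2 * u j : ℕ) : ℝ) ^ B) →
        ∃ B' : ℝ, ∀ᶠ n : ℕ in atTop, (C n : ℝ) ≤ μ ^ n * (n : ℝ) ^ B') := by
  have hC : ∀ n, C n = Pool.Agent.H46R2.K3.c n := fun n => Pool.Agent.H46R2.K3.P.card_eq n
  refine ⟨Pool.Agent.H46R2.K3.mu, lt_of_lt_of_le one_pos Pool.Agent.H46R2.K3.P.one_le_mu,
    ?_, ?_⟩
  · simpa only [hC] using Pool.Agent.H46R2.K3.P.tendsto_c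
  · intro u hu
    simp only [hC]
    refine ⟨fun hgap γ h => TH966.KO.sparse_exp u hu hgap (γ - 1) h, fun G B hgap h => ?_⟩
    have hμ : 0 < TH966.KO.μ := by linarith [TH966.KO.mu_one]
    obtain ⟨B', hB'⟩ := TH966.KO.sparse_poly u hu G B hgap (by
      filter_upwards [h, hu.eventually_gt_atTop 0] with j h1 h2
      have h3 : (0 : ℝ) < ((2 * u j : ℕ) : ℝ) := by exact_mod_cast (show 0 < 2 * u j by omega)
      have h4 : (TH966.KO.c (2 * u j) : ℝ) / TH966.KO.μ ^ (2 * u j) ≤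
          ((2 * u j : ℕ) : ℝ) ^ B := by
        rw [div_le_iff₀ (pow_pos hμ _)]
        exact h1.trans (le_of_eq (mul_comm _ _))
      have h5 := Real.log_le_log (TH966.KO.r_pos (2 * u j)) h4
      rw [Real.log_rpow h3] at h5
      push_cast at h5
      exact h5)
    refine ⟨B', ?_⟩
    filter_upwards [hB', eventually_gt_atTop 0] with n h1 h2
    have h3 : (0 : ℝ) < (n : ℝ) := by exact_mod_cast h2
    have h4 : (TH966.KO.c n : ℝ) / TH966.KO.μ ^ n ≤ (n : ℝ) ^ B' := by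
      rw [← Real.log_le_log_iff (TH966.KO.r_pos n) (Real.rpow_pos_of_pos h3 _),
        Real.log_rpow h3]
      exact h1
    rw [div_le_iff₀ (pow_pos hμ _)] at h4
    exact h4.trans (le_of_eq (mul_comm _ _))

end Pool.Agent.Results.MP_794e6e_pr.SparseExponent
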