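import Pool.Agent.TH966.KO.Sparse
import Pool.Agent.H46R2.K3.EQ

/-!
Self-avoiding walks on `ℤ³`: the asymptotic form `c_n ~ A μ^n n^(γ-1)` along a sequence of even lengths
and a sequence of odd lengths, both with gaps `o(√n)`, implies it for all lengths.
-/

set_option autoImplicit false

namespace Pool.Agent.Results.MP_794e6e_pr.SparseLengths

open Filter Topology

/-- the number of `n`-step self-avoiding nearest-neighbour walks on `ℤ³` from `0` -/
noncomputable def C (n : ℕ) : ℕ :=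
  Nat.card {f : Fin (n + 1) → (Fin 3 → ℤ) //
    f 0 = 0 ∧ Function.Injective f ∧
    ∀ i : Fin n, ∑ j : Fin 3, |f i.succ j - f i.castSucc j| = 1}

/-- **Theorem.** On `ℤ³` let `μ > 0` be the limit of `c_n^(1/n)`.  Let `u 0` and `u 1` be sequences of
natural numbers which tend to infinity and whose gaps `u p (j + 1) - u p j` are `o(√(u p j))`.  If
`c_n / (μ^n n^(γ-1))` tends to `A > 0` along the even lengths `n = 2 * u 0 j` and along the odd lengths
`n = 2 * u 1 j + 1`, then it tends to `A` along all lengths `n`. -/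
theorem result : ∃ μ : ℝ, 0 < μ ∧
    Tendsto (fun n : ℕ => (C n : ℝ) ^ (1 / (n : ℝ))) atTop (𝓝 μ) ∧
    ∀ u : Fin 2 → ℕ → ℕ, (∀ p, Tendsto (u p) atTop atTop) →
      (∀ p, Tendsto (fun j : ℕ => ((u p (j + 1) : ℝ) - u p j) / √(u p j)) atTop (𝓝 0)) →
      ∀ A γ : ℝ, 0 < A →
      (∀ p : Fin 2, Tendsto (fun j : ℕ => (C (2 * u p j + p) : ℝ) /
        (μ ^ (2 * u p j + p) * (((2 * u p j + p : ℕ) : ℝ)) ^ (γ - 1))) atTop (𝓝 A)) →
      Tendsto (fun n : ℕ => (C n : ℝ) / (μ ^ n * (n : ℝ) ^ (γ - 1))) atTop (𝓝 A) := by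
  have hC : ∀ n, C n = Pool.Agent.H46R2.K3.c n := fun n => Pool.Agent.H46R2.K3.P.card_eq n
  refine ⟨Pool.Agent.H46R2.K3.mu, lt_of_lt_of_le one_pos Pool.Agent.H46R2.K3.P.one_le_mu,
    ?_, ?_⟩
  · simpa only [hC] using Pool.Agent.H46R2.K3.P.tendsto_c
  · intro u hu hgap A γ hA h
    simp only [hC] at h ⊢
    exact TH966.KO.sparse u hu hgap A (γ - 1) hA h

end Pool.Agent.Results.MP_794e6e_pr.SparseLengths
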