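import Pool.Agent.TH232.S3.Iter
import Pool.Agent.H46R2.K3.EQ

/-!
Self-avoiding walks on `ℤ³`: the connective constant `μ` exists and there is `K` with
`μ^n ≤ c_n ≤ μ^n exp(K n^(1/3) exp(K (log log n)^2))` for all `n ≥ 3`.
-/

namespace Pool.Agent.Results.MP_794e6e_pr.ThirdLogLog

open Filter Topology

/-- the number of `n`-step self-avoiding nearest-neighbour walks on `ℤ³` from `0` -/
noncomputable def C (n : ℕ) : ℕ :=
  Nat.card {f : Fin (n + 1) → (Fin 3 → ℤ) //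
    f 0 = 0 ∧ Function.Injective f ∧
    ∀ i : Fin n, ∑ j : Fin 3, |f i.succ j - f i.castSucc j| = 1}

/-- **Theorem.** On `ℤ³` the limit `μ` of `c_n^(1/n)` exists and is positive, `μ^n ≤ c_n` for all `n`,
and there is a constant `K` with `c_n ≤ μ^n exp(K n^(1/3) exp(K (log log n)^2))` for all `n ≥ 3`. -/
theorem result : ∃ μ : ℝ, 0 < μ ∧
    Tendsto (fun n : ℕ => (C n : ℝ) ^ (1 / (n : ℝ))) atTop (𝓝 μ) ∧
    (∀ n : ℕ, μ ^ n ≤ (C n : ℝ)) ∧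
    ∃ K : ℝ, ∀ n : ℕ, 3 ≤ n →
      (C n : ℝ) ≤ μ ^ n * Real.exp (K * (n : ℝ) ^ (1 / 3 : ℝ) *
        Real.exp (K * Real.log (Real.log n) ^ 2)) := by
  have hC : ∀ n, C n = Pool.Agent.H46R2.K3.c n := fun n => Pool.Agent.H46R2.K3.P.card_eq n
  refine ⟨Pool.Agent.H46R2.K3.mu, lt_of_lt_of_le one_pos Pool.Agent.H46R2.K3.P.one_le_mu,
    ?_, ?_, ?_⟩
  · simpa only [hC] using Pool.Agent.H46R2.K3.P.tendsto_c
  · intro n; rw [hC]; exact Pool.Agent.H46R2.K3.P.mu_pow_le n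
  · obtain ⟨K, hK⟩ := Pool.Agent.TH232.S3.c_bound
    exact ⟨K, fun n hn => by rw [hC]; exact hK n hn⟩

end Pool.Agent.Results.MP_794e6e_pr.ThirdLogLog
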